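import Pool.Agent.J4.H74.NavEnd

/-!
# The Navier-type critical biharmonic Sobolev constant of every open cone is `S**`
-/

set_option autoImplicit false

open MeasureTheory Set Filter Topology Metric
open scoped InnerProductSpace ContDiff Laplacian ENNReal

namespace Pool.Agent.Results.MP_462b8b_an.NavierEquality

open Pool.Agent.J4.H74 Pool.Agent.J4.H74.Nav
open Pool.Agent.Helper486.TP (lap_continuous lap_hasCompactSupport)

variable {n : ℕ}

lemma cone_isOpen {S U : Set (Sp n)} (hU : IsOpen U) (hS : S = U ∩ sphere 0 1) :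
    IsOpen (cone S) := by
  have h : cone S = ({0}ᶜ : Set (Sp n)) ∩ (fun x => ‖x‖⁻¹ • x) ⁻¹' U := by
    ext x
    constructor
    · rintro ⟨r, hr, σ, hσ, rfl⟩
      rw [hS] at hσ
      have h1 : ‖σ‖ = 1 := by simpa using hσ.2
      have h0 : σ ≠ 0 := by
        intro h
        rw [h, norm_zero] at h1
        exact zero_ne_one h1
      refine ⟨?_, ?_⟩
      · simp [hr.ne', h0]
      · show ‖r • σ‖⁻¹ • r • σ ∈ U
        rw [norm_smul, h1, mul_one, Real.norm_eq_abs, abs_of_pos hr, inv_smul_smul₀ hr.ne']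
        exact hσ.1
    · rintro ⟨hx, hxU⟩
      have h0 : x ≠ 0 := hx
      have h1 : 0 < ‖x‖ := norm_pos_iff.2 h0
      refine ⟨‖x‖, h1, ‖x‖⁻¹ • x, ?_, by rw [smul_inv_smul₀ h1.ne']⟩
      rw [hS]
      refine ⟨hxU, ?_⟩
      rw [mem_sphere_zero_iff_norm, norm_smul, norm_inv, norm_norm, inv_mul_cancel₀ h1.ne']
  rw [h]
  refine ContinuousOn.isOpen_inter_preimage ?_ isOpen_compl_singleton hU
  intro x hx
  have h0 : x ≠ 0 := hx
  exact ((continuous_norm.continuousAt.inv₀ (norm_ne_zero_iff.2 h0)).smul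
    continuousAt_id).continuousWithinAt

lemma cone_smul {S : Set (Sp n)} : ∀ x ∈ cone S, ∀ t : ℝ, 0 < t → t • x ∈ cone S := by
  rintro x ⟨r, hr, σ, hσ, rfl⟩ t ht
  exact ⟨t * r, by positivity, σ, hσ, by rw [mul_smul]⟩

lemma zero_notMem {S : Set (Sp n)} (hS : S ⊆ sphere 0 1) : (0 : Sp n) ∉ cone S := by
  rintro ⟨r, hr, σ, hσ, h⟩
  have h1 : ‖σ‖ = 1 := by simpa using hS hσ
  have h2 : ‖r • σ‖ = 0 := by rw [← h, norm_zero]
  rw [norm_smul, h1, mul_one, Real.norm_eq_abs, abs_of_pos hr] at h2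
  exact hr.ne' h2

lemma test_navier {Ω : Set (Sp n)} (hΩ : IsOpen Ω) (h0 : (0 : Sp n) ∉ Ω) {u : Sp n → ℝ}
    (hu : TestFun Ω u) : Navier Ω u := by
  obtain ⟨h1, h2, h3⟩ := hu
  have hc1 : ContDiff ℝ ∞ (fderiv ℝ u) := h1.fderiv_right (by norm_cast)
  have hc2 : ContDiff ℝ ∞ (fderiv ℝ (fderiv ℝ u)) := hc1.fderiv_right (by norm_cast)
  have hz : ∀ x, x ∉ Ω → u x = 0 := fun x hx =>
    image_eq_zero_of_notMem_tsupport fun h => hx (h3 h)
  refine ⟨⟨(h1.of_le (by norm_cast)).contDiffOn, h1.continuous.continuousOn,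
    ⟨_, hc1.continuous.continuousOn, fun _ _ => rfl⟩,
    ⟨_, hc2.continuous.continuousOn, fun _ _ => rfl⟩⟩, ?_, ?_, ?_⟩
  · intro x hx
    rw [frontier, hΩ.interior_eq] at hx
    exact hz x hx.2
  · have h4 : (tsupport u)ᶜ ∈ 𝓝 (0 : Sp n) :=
      (isClosed_tsupport u).isOpen_compl.mem_nhds fun h => h0 (h3 h)
    obtain ⟨r, hr, hball⟩ := Metric.mem_nhds_iff.1 h4
    refine ⟨r, hr, fun x _ hx => image_eq_zero_of_notMem_tsupport (hball ?_)⟩
    simpa using hx
  · obtain ⟨R, hR⟩ := h2.isBounded.subset_closedBall (0 : Sp n)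
    refine ⟨R, fun x _ hx => image_eq_zero_of_notMem_tsupport fun h => ?_⟩
    have := hR h
    rw [mem_closedBall_zero_iff] at this
    linarith

lemma test_nonempty (n : ℕ) :
    {q : ℝ | ∃ u : Sp n → ℝ, TestFun univ u ∧ (∃ x ∈ (univ : Set (Sp n)), u x ≠ 0) ∧
      q = quot univ u}.Nonempty := by
  refine ⟨_, cut 1, ⟨cut_contDiff 1, cut_supp one_pos, subset_univ _⟩, ⟨0, mem_univ _, ?_⟩, rfl⟩
  rw [cut_one one_pos (by simp)]
  exact one_ne_zero

lemma sandwich (hn : 5 ≤ n) {S : Set (Sp n)} (hS : S ⊆ sphere 0 1) (hne : S.Nonempty)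
    (hopen : ∃ U : Set (Sp n), IsOpen U ∧ S = U ∩ sphere 0 1) {A : (Sp n → ℝ) → Prop}
    (hA1 : ∀ u, TestFun (cone S) u → A u) (hA2 : ∀ u, A u → Navier (cone S) u) :
    infQuot (cone S) A = S0 n := by
  obtain ⟨U, hU, hSU⟩ := hopen
  have hΩ : IsOpen (cone S) := cone_isOpen hU hSU
  have hne' : (cone S).Nonempty := by
    obtain ⟨σ, hσ⟩ := hne
    exact ⟨σ, 1, one_pos, σ, hσ, by simp⟩
  have htr : ∀ φ : Sp n → ℝ, TestFun univ φ → (∃ x ∈ (univ : Set (Sp n)), φ x ≠ 0) →
      ∃ ψ : Sp n → ℝ, TestFun (cone S) ψ ∧ (∃ x ∈ cone S, ψ x ≠ 0) ∧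
        quot (cone S) ψ = quot univ φ := by
    rintro φ ⟨h1, h2, -⟩ ⟨x, -, hx⟩
    exact translate hn cone_smul hΩ hne' h1 h2 ⟨x, hx⟩
  refine le_antisymm ?_ ?_
  · refine le_csInf (test_nonempty n) ?_
    rintro q ⟨φ, hφ, hφ0, rfl⟩
    obtain ⟨ψ, h1, h2, h3⟩ := htr φ hφ hφ0
    rw [← h3]
    exact infQuot_le (hA1 ψ h1) h2
  · refine le_csInf ?_ ?_
    · obtain ⟨q, φ, hφ, hφ0, rfl⟩ := test_nonempty n
      obtain ⟨ψ, h1, h2, h3⟩ := htr φ hφ hφ0
      exact ⟨_, ψ, hA1 ψ h1, h2, rfl⟩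
    · rintro q ⟨u, hu, hu0, rfl⟩
      have hN := hA2 u hu
      have hpos : 0 < ∫ x in cone S, |u x| ^ crit n :=
        int_pow_pos hΩ (hN.1.2.1.mono subset_closure) (crit_pos hn) (nav_pow_int hn hΩ hN) hu0
      unfold quot
      rw [le_div_iff₀ (Real.rpow_pos_of_pos hpos _)]
      exact nav_ge hn hΩ hN

/-- Convergence in `L^p` implies convergence of the norms. -/
lemma lim_norm {p : ℝ} (hp : 1 ≤ p) {a : ℕ → Sp n → ℝ} {b : Sp n → ℝ}
    (ha : ∀ k, MemLp (a k) (ENNReal.ofReal p) volume) (hb : MemLp b (ENNReal.ofReal p) volume)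
    (h : Tendsto (fun k => ∫ x, |a k x - b x| ^ p) atTop (𝓝 0)) :
    Tendsto (fun k => ∫ x, |a k x| ^ p) atTop (𝓝 (∫ x, |b x| ^ p)) := by
  have hp0 : 0 < p := by linarith
  haveI : Fact (1 ≤ ENNReal.ofReal p) := ⟨by
    rw [← ENNReal.ofReal_one]
    exact ENNReal.ofReal_le_ofReal hp⟩
  have hq0 : ENNReal.ofReal p ≠ 0 := by simpa using hp0
  have hqt : ENNReal.ofReal p ≠ ⊤ := ENNReal.ofReal_ne_top
  have hqr : (ENNReal.ofReal p).toReal = p := ENNReal.toReal_ofReal hp0.le
  have hnorm : ∀ c : Sp n → ℝ, MemLp c (ENNReal.ofReal p) volume →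
      eLpNorm c (ENNReal.ofReal p) volume = ENNReal.ofReal ((∫ x, |c x| ^ p) ^ p⁻¹) := by
    intro c hc
    rw [hc.eLpNorm_eq_integral_rpow_norm hq0 hqt, hqr]
    simp only [Real.norm_eq_abs]
  have h1 : Tendsto (fun k => eLpNorm (a k - b) (ENNReal.ofReal p) volume) atTop (𝓝 0) := by
    have e : (fun k => eLpNorm (a k - b) (ENNReal.ofReal p) volume) =
        fun k => ENNReal.ofReal ((∫ x, |a k x - b x| ^ p) ^ p⁻¹) := by
      funext k
      rw [hnorm _ ((ha k).sub hb)]
      rfl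
    rw [e]
    have h2 := (h.rpow_const (p := p⁻¹) (Or.inr (by positivity)))
    rw [Real.zero_rpow (by positivity)] at h2
    have h3 := (ENNReal.continuous_ofReal.tendsto 0).comp h2
    rw [ENNReal.ofReal_zero] at h3
    exact h3
  have h2 := ((Lp.tendsto_Lp_iff_tendsto_eLpNorm'' a ha b hb).2 h1).norm
  simp only [Lp.norm_toLp] at h2
  have h3 : Tendsto (fun k => (∫ x, |a k x| ^ p) ^ p⁻¹) atTop (𝓝 ((∫ x, |b x| ^ p) ^ p⁻¹)) := by
    have e : ∀ c : Sp n → ℝ, MemLp c (ENNReal.ofReal p) volume →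
        (eLpNorm c (ENNReal.ofReal p) volume).toReal = (∫ x, |c x| ^ p) ^ p⁻¹ := by
      intro c hc
      rw [hnorm c hc, ENNReal.toReal_ofReal]
      exact Real.rpow_nonneg (integral_nonneg fun x => Real.rpow_nonneg (abs_nonneg _) _) _
    rw [e b hb] at h2
    simpa only [e _ (ha _)] using h2
  have h4 := h3.rpow_const (p := p) (Or.inr hp0.le)
  have e : ∀ c : Sp n → ℝ, ((∫ x, |c x| ^ p) ^ p⁻¹) ^ p = ∫ x, |c x| ^ p := fun c =>
    Real.rpow_inv_rpow (integral_nonneg fun x => Real.rpow_nonneg (abs_nonneg _) _) hp0.ne'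
  simpa only [e] using h4

lemma star_eq (hn : 5 ≤ n) : SStar n = S0 n := by
  have hp := crit_pos hn
  refine le_antisymm ?_ ?_
  · refine le_csInf (test_nonempty n) ?_
    rintro q ⟨φ, ⟨h1, h2, h3⟩, ⟨x, -, hx⟩, rfl⟩
    refine csInf_le ?_ ?_
    · refine ⟨0, ?_⟩
      rintro q ⟨v, f, -, -, rfl⟩
      exact div_nonneg (integral_nonneg fun x => sq_nonneg _)
        (Real.rpow_nonneg (integral_nonneg fun x => Real.rpow_nonneg (abs_nonneg _) _) _)
    · refine ⟨φ, Δ φ, ⟨h1.continuous.memLp_of_hasCompactSupport h2,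
        (lap_continuous h1).memLp_of_hasCompactSupport (lap_hasCompactSupport h2),
        fun _ => φ, fun _ => ⟨h1, h2, h3⟩, ?_, ?_⟩, ?_, ?_⟩
      · simp [Real.zero_rpow hp.ne']
      · simp
      · intro h
        have h4 : φ = 0 := (Continuous.ae_eq_iff_eq volume h1.continuous continuous_const).1 h
        rw [h4] at hx
        exact hx rfl
      · unfold quot
        rw [Measure.restrict_univ]
  · refine le_csInf ?_ ?_
    · obtain ⟨q, φ, ⟨h1, h2, h3⟩, ⟨x, -, hx⟩, rfl⟩ := test_nonempty n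
      refine ⟨_, φ, Δ φ, ⟨h1.continuous.memLp_of_hasCompactSupport h2,
        (lap_continuous h1).memLp_of_hasCompactSupport (lap_hasCompactSupport h2),
        fun _ => φ, fun _ => ⟨h1, h2, h3⟩, ?_, ?_⟩, ?_, rfl⟩
      · simp [Real.zero_rpow hp.ne']
      · simp
      · intro h
        have h4 : φ = 0 := (Continuous.ae_eq_iff_eq volume h1.continuous continuous_const).1 h
        rw [h4] at hx
        exact hx rfl
    · rintro q ⟨v, f, ⟨hv, hf, φ, hφ, hφv, hφf⟩, hv0, rfl⟩
      have hint : Integrable (fun x => |v x| ^ crit n) := by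
        have := hv.integrable_norm_rpow (by simpa using hp) ENNReal.ofReal_ne_top
        rw [ENNReal.toReal_ofReal hp.le] at this
        simpa only [Real.norm_eq_abs] using this
      have hpos : 0 < ∫ x, |v x| ^ crit n := by
        refine lt_of_le_of_ne (integral_nonneg fun x => Real.rpow_nonneg (abs_nonneg _) _) ?_
        intro h
        apply hv0
        have h1 := (integral_eq_zero_iff_of_nonneg
          (fun x => Real.rpow_nonneg (abs_nonneg (v x)) (crit n)) hint).1 h.symm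
        filter_upwards [h1] with x hx
        have h2 : |v x| ^ crit n = 0 := hx
        rw [Real.rpow_eq_zero (abs_nonneg _) hp.ne'] at h2
        simpa using h2
      rw [le_div_iff₀ (Real.rpow_pos_of_pos hpos _)]
      have hl1 : Tendsto (fun k => ∫ x, |φ k x| ^ crit n) atTop (𝓝 (∫ x, |v x| ^ crit n)) :=
        lim_norm (one_le_crit hn)
          (fun k => (hφ k).1.continuous.memLp_of_hasCompactSupport (hφ k).2.1) hv hφv
      have hl2 : Tendsto (fun k => ∫ x, (Δ (φ k)) x ^ 2) atTop (𝓝 (∫ x, f x ^ 2)) := by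
        have e2 : (ENNReal.ofReal (2 : ℝ)) = 2 := by norm_num
        have := lim_norm (n := n) (p := 2) one_le_two (a := fun k => Δ (φ k)) (b := f)
          (fun k => (lap_continuous (hφ k).1).memLp_of_hasCompactSupport
            (lap_hasCompactSupport (hφ k).2.1)) (by rw [e2]; exact hf)
          (by simpa only [Real.rpow_two, sq_abs] using hφf)
        simpa only [Real.rpow_two, sq_abs] using this
      have hl3 := ((hl1.rpow_const (p := 2 / crit n) (Or.inr (by positivity))).const_mul (S0 n))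
      exact le_of_tendsto_of_tendsto' hl3 hl2 fun k => S0_le hn (hφ k).1 (hφ k).2.1

/-- **Positive answer to Q1, for every open cone.** Let `n ≥ 5` and let `S` be any non-empty
relatively open subset of the unit sphere of `ℝⁿ` (no regularity of the boundary, no connectedness
and no properness are needed; in particular `S` may be any `C²` domain `Σ ⊊ 𝕊ⁿ⁻¹`). Then the
Navier-type constant `S_{2**}(C_S;0)` equals `S**`. The same holds for the infimum over any class of
functions that lies between the test functions of the cone and the Navier class (so the result does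
not depend on the exact reading of `C²(closure C_S)`). -/
theorem result (n : ℕ) (hn : 5 ≤ n) (S : Set (Sp n)) (hS : S ⊆ sphere 0 1) (hne : S.Nonempty)
    (hopen : ∃ U : Set (Sp n), IsOpen U ∧ S = U ∩ sphere 0 1) :
    SNavier (cone S) = SStar n ∧
    ∀ A : (Sp n → ℝ) → Prop, (∀ u, TestFun (cone S) u → A u) → (∀ u, A u → Navier (cone S) u) →
      infQuot (cone S) A = SStar n := by
  have hΩ : IsOpen (cone S) := by
    obtain ⟨U, hU, hSU⟩ := hopen
    exact cone_isOpen hU hSU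
  rw [star_eq hn]
  refine ⟨?_, fun A hA1 hA2 => sandwich hn hS hne hopen hA1 hA2⟩
  exact sandwich hn hS hne hopen (fun u hu => test_navier hΩ (zero_notMem hS) hu) fun u hu => hu

end Pool.Agent.Results.MP_462b8b_an.NavierEquality
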